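import Mathlib

/-! Borel hereditary classes of binary structures: definitions and pieces.

A structure with unary and binary relations is treated as a colouring `d : ℕ → ℕ → C` of pairs
(the colour of `(x, y)` is the atomic type of the pair).  `f : ℕ → ℕ` injective, the substructure
is `fun x y => d (f x) (f y)`. -/

namespace Run7.h46.V

open Set Filter Function

/-- the colour of a pair determines the colour of the swapped pair -/
def Sw {C : Type} (d : ℕ → ℕ → C) : Prop :=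
  ∀ x y x' y', d x y = d x' y' → d y x = d y' x'

/-- `x` and `y` have the same colour to almost all points -/
def AE {C : Type} (d : ℕ → ℕ → C) (x y : ℕ) : Prop := ∀ᶠ v in cofinite, d x v = d y v

/-- `x` and `y` are linked -/
def Lk {C : Type} (d : ℕ → ℕ → C) (x y : ℕ) : Prop :=
  ∃ᶠ y' in cofinite, AE d y' y ∧ d x y' ≠ d x y

/-- `F` is a finite component of the link relation -/
def Cmp {C : Type} (d : ℕ → ℕ → C) (F : Finset ℕ) : Prop :=
  F.Nonempty ∧ (∀ G ⊆ F, G.Nonempty → G ≠ F → ∃ x ∈ G, ∃ y ∈ F, y ∉ G ∧ Lk d x y) ∧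
    ∀ x ∈ F, ∀ y, y ∉ F → ¬ Lk d x y

/-- the sizes of finite components -/
def DD {C : Type} (d : ℕ → ℕ → C) : Set ℕ := {n | ∃ F : Finset ℕ, F.card = n ∧ Cmp d F}

/-- twins -/
def Tw {C : Type} (d : ℕ → ℕ → C) (x y : ℕ) : Prop :=
  (∀ v, v ≠ x → v ≠ y → d x v = d y v) ∧ d x y = d y x

/-- `F` is a class of twins -/
def TC {C : Type} (d : ℕ → ℕ → C) (F : Finset ℕ) : Prop :=
  F.Nonempty ∧ (∀ x ∈ F, ∀ y ∈ F, x ≠ y → Tw d x y) ∧ ∀ x ∈ F, ∀ y, y ∉ F → ¬ Tw d x y

/-- the sizes of finite classes of twins -/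
def TT {C : Type} (d : ℕ → ℕ → C) : Set ℕ := {n | ∃ F : Finset ℕ, F.card = n ∧ TC d F}

/-- **Piece V1.** Disjoint blocks, colours across blocks given by labels, connected blocks: the
components are the blocks. -/
def StV1 : Prop :=
  ∀ (C I : Type) (d : ℕ → ℕ → C) (blk : ℕ → ℕ) (lab : ℕ → I) (δ : I → I → C), Sw d →
    (∀ b, {x | blk x = b}.Finite) →
    (∀ x y, blk x ≠ blk y → d x y = δ (lab x) (lab y)) →
    (∀ x, {y | lab y = lab x}.Infinite) →
    (∀ z, ∀ G : Set ℕ, G.Nonempty → G ⊂ {x | blk x = blk z} →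
      ∃ x ∈ G, ∃ y, blk y = blk z ∧ y ∉ G ∧ d x y ≠ δ (lab x) (lab y)) →
    DD d = {n | ∃ z, n = {x | blk x = blk z}.ncard}

/-- **Piece V2.** Half-graph words: `blk` is the position of the block, in each block there is
one point with label `false`, which comes last, and at least two points with label `true`;
`δ s t` is the colour of (later point with label `s`, earlier point with label `t`). The classes
of twins are the parts with label `true` of the blocks and the single points with label `false`. -/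
def StV2 : Prop :=
  ∀ (C : Type) (d : ℕ → ℕ → C) (blk : ℕ → ℕ) (lab : ℕ → Bool) (δ : Bool → Bool → C), Sw d →
    (∀ b, {x | blk x = b}.Finite) →
    (∀ b, ∃ y, blk y = b ∧ lab y = false ∧ ∀ y', blk y' = b → lab y' = false → y' = y) →
    (∀ b, 2 ≤ {x | blk x = b ∧ lab x = true}.ncard) →
    (∀ x y, blk y < blk x → d x y = δ (lab x) (lab y)) →
    (∀ x y, x ≠ y → lab x = true → lab y = true → blk x = blk y → d x y = δ true true) →
    (∀ x y, lab x = true → lab y = false → blk x = blk y → d y x = δ false true) →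
    (∀ x y, d x y = δ true true → d y x = δ true true) →
    (∀ x y, d x y = δ false false → d y x = δ false false) →
    (∀ x y, ¬ (d x y = δ true false ∧ d y x = δ false true)) →
    TT d = {1} ∪ {n | ∃ b, n = {x | blk x = b ∧ lab x = true}.ncard}

/-- cellular colourings -/
def CellD {C : Type} (d : ℕ → ℕ → C) : Prop :=
  ∃ (n : ℕ) (k : Fin n → ℕ) (K : Set ℕ) (c : ∀ i : Fin n, ℕ → Fin (k i) → ℕ),
    K.Finite ∧ (∀ i j l, c i j l ∉ K) ∧
    Injective (fun p : (Σ i : Fin n, ℕ × Fin (k i)) => c p.1 p.2.1 p.2.2) ∧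
    (∀ x, x ∈ K ∨ ∃ i j l, x = c i j l) ∧
    ∀ (i : Fin n) (σ : Equiv.Perm ℕ), ∃ g : Equiv.Perm ℕ, (∀ x y, d (g x) (g y) = d x y) ∧
      (∀ j l, g (c i j l) = c i (σ j) l) ∧ ∀ x, (∀ j l, x ≠ c i j l) → g x = x

/-- **Piece V3.** Criterion for cellularity. Almost all points have a label, `p a x` is the
colour of `(y, x)` for almost all `y` with label `a`, and the good points `G₀` are partitioned
into finite sets of bounded size with colours across given by the labels. -/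
def StV3 : Prop :=
  ∀ (C P : Type) [Finite C] [Finite P] (d : ℕ → ℕ → C) (lab : ℕ → P) (δ : P → P → C)
    (p : P → ℕ → C) (G₀ : Set ℕ) (K : ℕ) (cmp : ℕ → Finset ℕ), Sw d → G₀ᶜ.Finite →
    (∀ x, ∀ᶠ y in cofinite, d y x = p (lab y) x) →
    (∀ x, x ∈ cmp x) → (∀ x y, y ∈ cmp x → cmp y = cmp x) → (∀ x, (cmp x).card ≤ K) →
    (∀ x y, x ∈ G₀ → y ∈ G₀ → y ∉ cmp x → d x y = δ (lab x) (lab y)) →
    CellD d

/-- **Piece V4.** The invariants are Borel. -/
def StV4 : Prop :=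
  ∀ (C Y : Type) [MeasurableSpace Y] (d : Y → ℕ → ℕ → C),
    (∀ x y x' y', MeasurableSet {t | d t x y = d t x' y'}) →
    ∀ n, MeasurableSet {t | n ∈ DD (d t)} ∧ MeasurableSet {t | n ∈ TT (d t)}

/-- **Piece V5.** The invariants are invariant under permutations. -/
def StV5 : Prop :=
  ∀ (C : Type) (d : ℕ → ℕ → C) (e : Equiv.Perm ℕ),
    DD (fun x y => d (e x) (e y)) = DD d ∧ TT (fun x y => d (e x) (e y)) = TT d

/-- **Piece V6.** A locally finite graph: bounded components, or arbitrarily large finite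
connected sets far away from any given finite set. -/
def StV6 : Prop :=
  ∀ (E : ℕ → ℕ → Prop), (∀ x y, E x y → E y x) → (∀ x, {y | E x y}.Finite) →
    (∃ (K : ℕ) (cmp : ℕ → Finset ℕ), (∀ x, x ∈ cmp x) ∧ (∀ x y, y ∈ cmp x → cmp y = cmp x) ∧
      (∀ x, (cmp x).card ≤ K) ∧ ∀ x y, E x y → y ∈ cmp x) ∨
    (∀ n : ℕ, ∃ W : Finset ℕ, (∀ x ∈ W, n ≤ x) ∧ n < W.card ∧ (∀ x ∈ W, ∀ u < n, ¬ E x u) ∧
      ∀ G ⊆ W, G.Nonempty → G ≠ W → ∃ x ∈ G, ∃ y ∈ W, y ∉ G ∧ E x y)

/-- block sequences of the first kind -/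
def BlkD {C : Type} (d : ℕ → ℕ → C) : Prop :=
  ∃ (I : Type) (δ : I → I → C) (B : ℕ → Finset ℕ) (lab : ℕ → ℕ → I),
    (B 0).Nonempty ∧ (∀ m n, m < n → (B m).card < (B n).card) ∧
    (∀ m n, m ≠ n → Disjoint (B m) (B n)) ∧
    (∀ m n, m ≠ n → ∀ x ∈ B m, ∀ y ∈ B n, d x y = δ (lab m x) (lab n y)) ∧
    (∀ m n, ∀ x ∈ B m, ∃ y ∈ B n, lab n y = lab m x) ∧
    ∀ m, ∀ G ⊆ B m, G.Nonempty → G ≠ B m →
      ∃ x ∈ G, ∃ y ∈ B m, y ∉ G ∧ d x y ≠ δ (lab m x) (lab m y)

/-- **Piece V7.** Block sequences of the first kind give continuum many values of `DD`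
(use V1 for the sequence of the blocks with numbers `2 n` or `2 n + 1`, according to `n ∈ X`). -/
def StV7 : Prop :=
  ∀ (C : Type) (d : ℕ → ℕ → C), Sw d → BlkD d →
    ∃ f : Set ℕ → ℕ → ℕ, (∀ X, Injective (f X)) ∧
      ∀ X Y, X ≠ Y → DD (fun x y => d (f X x) (f X y)) ≠ DD (fun x y => d (f Y x) (f Y y))

/-- block sequences of the second kind -/
def BlkT {C : Type} (d : ℕ → ℕ → C) : Prop :=
  ∃ (δ : Bool → Bool → C) (B : ℕ → Finset ℕ) (y : ℕ → ℕ),
    (∀ n, y n ∉ B n) ∧ 2 ≤ (B 0).card ∧ (∀ m n, m < n → (B m).card < (B n).card) ∧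
    (∀ m n, m ≠ n → Disjoint (insert (y m) (B m)) (insert (y n) (B n))) ∧
    (∀ m n, m < n → (∀ x ∈ B n, ∀ x' ∈ B m, d x x' = δ true true) ∧
      (∀ x ∈ B n, d x (y m) = δ true false) ∧ (∀ x ∈ B m, d (y n) x = δ false true) ∧
      d (y n) (y m) = δ false false) ∧
    (∀ n, ∀ x ∈ B n, ∀ x' ∈ B n, x ≠ x' → d x x' = δ true true) ∧
    (∀ n, ∀ x ∈ B n, d (y n) x = δ false true) ∧
    (∀ x y, d x y = δ true true → d y x = δ true true) ∧
    (∀ x y, d x y = δ false false → d y x = δ false false) ∧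
    (∀ x y, ¬ (d x y = δ true false ∧ d y x = δ false true))

/-- **Piece V8.** Block sequences of the second kind give continuum many values of `TT`
(use V2). -/
def StV8 : Prop :=
  ∀ (C : Type) (d : ℕ → ℕ → C), Sw d → BlkT d →
    ∃ f : Set ℕ → ℕ → ℕ, (∀ X, Injective (f X)) ∧
      ∀ X Y, X ≠ Y → TT (fun x y => d (f X x) (f X y)) ≠ TT (fun x y => d (f Y x) (f Y y))

end Run7.h46.V
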