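import Pool.Agent.Run7.h46.V.Lim

/-! If exchange fails there is a block sequence of the second kind. -/

namespace Run7.h46.V

open Set Filter Function

variable {C : Type} [Finite C]

/-- increasing homogeneous sequences are symmetric -/
def Ns (d : ℕ → ℕ → C) : Prop :=
  ∀ x : ℕ → ℕ, StrictMono x → ∀ c, (∀ i j, i < j → d (x j) (x i) = c) →
    ∀ i j, i < j → d (x i) (x j) = c

theorem sym_dl {d : ℕ → ℕ → C} (hd : Sw d) (hS : Ns d) {U : Ultrafilter ℕ} (hU : Np U)
    (x y : ℕ) (h : d x y = dl d U U) : d y x = dl d U U := by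
  have h0 : ∀ n : ℕ, ∃ b : ℕ, n ≤ b ∧ (∀ u < n, d b u = tp d U u) ∧ tp d U b = dl d U U :=
    fun n => ((hU n).and ((tp_spec_lt d U n).and (dl_spec d U U))).exists
  obtain ⟨B, m, h1, h2⟩ := exists_seq (fun b : ℕ => ({b} : Finset ℕ)) _ h0
  have h3 : ∀ i j, i < j → B i < m j := fun i j hij =>
    (h2 i j hij).1 _ (Finset.mem_singleton_self _)
  have h4 : StrictMono B := fun i j hij => (h3 i j hij).trans_le (h1 j).1
  have h5 : ∀ i j, i < j → d (B j) (B i) = dl d U U := fun i j hij => by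
    rw [(h1 j).2.1 _ (h3 i j hij)]
    exact (h1 i).2.2
  have h6 := hS B h4 _ h5 0 1 Nat.zero_lt_one
  rw [← h6]
  exact hd x y (B 1) (B 0) (h.trans (h5 0 1 Nat.zero_lt_one).symm)

theorem exists_chain {d : ℕ → ℕ → C} {U : Ultrafilter ℕ} (hU : Np U) {T : ℕ → Prop}
    (hT : ∀ᶠ x in (U : Filter ℕ), T x) (n N : ℕ) :
    ∃ W : Finset ℕ, W.card = N ∧ (∀ x ∈ W, n ≤ x ∧ T x ∧ tp d U x = dl d U U ∧
      ∀ u < n, d x u = tp d U u) ∧ ∀ x ∈ W, ∀ x' ∈ W, x < x' → d x' x = dl d U U := by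
  classical
  induction N with
  | zero => exact ⟨∅, rfl, by simp, by simp⟩
  | succ N ih =>
    obtain ⟨W, h1, h2, h3⟩ := ih
    let M : ℕ := n + W.sup id + 1
    obtain ⟨x, hx1, hx2, hx3, hx4⟩ := ((hU M).and ((tp_spec_lt d U M).and
      ((dl_spec d U U).and hT))).exists
    have h4 : ∀ y ∈ W, y < M := fun y hy => by
      have : y ≤ W.sup id := Finset.le_sup (f := id) hy
      omega
    have h5 : x ∉ W := fun h => by
      have := h4 x h
      omega
    refine ⟨insert x W, by rw [Finset.card_insert_of_notMem h5, h1], ?_, ?_⟩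
    · intro y hy
      rcases Finset.mem_insert.1 hy with rfl | hy
      · exact ⟨by omega, hx4, hx3, fun u hu => hx2 u (by omega)⟩
      · exact h2 y hy
    · intro y hy y' hy' hyy
      rcases Finset.mem_insert.1 hy' with e | g'
      · rcases Finset.mem_insert.1 hy with e' | g
        · omega
        · rw [e, hx2 y (h4 y g)]
          exact (h2 y g).2.2.1
      · rcases Finset.mem_insert.1 hy with e' | g
        · have := h4 y' g'
          omega
        · exact h3 y g y' g' hyy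

/-- If exchange fails there is a block sequence of the second kind. -/
theorem blkT_of_not_xc {d : ℕ → ℕ → C} (hd : Sw d) (hS : Ns d) (hX : ¬ Xc d) : BlkT d := by
  classical
  unfold Xc at hX
  push Not at hX
  obtain ⟨U, V, hU, hV, hUV⟩ := hX
  let Q : ℕ → Finset ℕ × ℕ → Prop := fun n B =>
    B.1.card = n + 2 ∧ (∀ x ∈ B.1, n ≤ x ∧ tp d V x = dl d V U ∧ tp d U x = dl d U U ∧
      ∀ u < n, d x u = tp d U u) ∧ (∀ x ∈ B.1, ∀ x' ∈ B.1, x < x' → d x' x = dl d U U) ∧
      n ≤ B.2 ∧ (∀ x ∈ B.1, x < B.2) ∧ tp d U B.2 = dl d U V ∧ tp d V B.2 = dl d V V ∧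
      (∀ u < n, d B.2 u = tp d V u) ∧ ∀ x ∈ B.1, d B.2 x = dl d V U
  have hQ : ∀ n, ∃ B, Q n B := by
    intro n
    obtain ⟨W, h1, h2, h3⟩ := exists_chain (d := d) hU (T := fun x => tp d V x = dl d V U)
      (dl_spec d V U) n (n + 2)
    let M : ℕ := n + W.sup id + 1
    have h4 : ∀ y ∈ W, y < M := fun y hy => by
      have : y ≤ W.sup id := Finset.le_sup (f := id) hy
      omega
    obtain ⟨y, hy1, hy2, hy3, hy4⟩ := ((hV M).and ((tp_spec_lt d V M).and
      ((dl_spec d U V).and (dl_spec d V V)))).exists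
    refine ⟨(W, y), h1, h2, h3, by show n ≤ y; omega, fun x hx => (h4 x hx).trans_le hy1, hy3, hy4,
      fun u hu => hy2 u (by omega), fun x hx => ?_⟩
    show d y x = _
    rw [hy2 x (h4 x hx)]
    exact (h2 x hx).2.1
  obtain ⟨B, m, h1, h2⟩ := exists_seq (fun B : Finset ℕ × ℕ => insert B.2 B.1) Q hQ
  have hlt : ∀ j k, j < k → (B j).2 < m k ∧ ∀ x ∈ (B j).1, x < m k := fun j k hjk =>
    ⟨(h2 j k hjk).1 _ (Finset.mem_insert_self _ _),
      fun x hx => (h2 j k hjk).1 _ (Finset.mem_insert_of_mem hx)⟩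
  have hge : ∀ k, ∀ x ∈ insert (B k).2 (B k).1, m k ≤ x := by
    intro k x hx
    rcases Finset.mem_insert.1 hx with rfl | hx
    · exact (h1 k).2.2.2.1
    · exact ((h1 k).2.1 x hx).1
  have hdis : ∀ j k, j < k → Disjoint (insert (B j).2 (B j).1) (insert (B k).2 (B k).1) := by
    intro j k hjk
    rw [Finset.disjoint_left]
    intro x hx hx'
    have h3 := (h2 j k hjk).1 x hx
    have h4 := hge k x hx'
    omega
  let δ : Bool → Bool → C := fun s t => dl d (bif s then U else V) (bif t then U else V)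
  have hsU := sym_dl hd hS hU
  have hsV := sym_dl hd hS hV
  refine ⟨δ, fun k => (B k).1, fun k => (B k).2, ?_, ?_, ?_, ?_, ?_, ?_, ?_, hsU, hsV, ?_⟩
  · intro n h
    exact lt_irrefl _ ((h1 n).2.2.2.2.1 _ h)
  · have := (h1 0).1
    show 2 ≤ (B 0).1.card
    omega
  · intro j k hjk
    have h3 := (h1 j).1
    have h4 := (h1 k).1
    have h5 := (h2 j k hjk).2.2
    show (B j).1.card < (B k).1.card
    omega
  · intro j k hjk
    rcases lt_or_gt_of_ne hjk with h | h
    · exact hdis j k h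
    · exact (hdis k j h).symm
  · intro j k hjk
    refine ⟨fun x hx x' hx' => ?_, fun x hx => ?_, fun x hx => ?_, ?_⟩
    · rw [((h1 k).2.1 x hx).2.2.2 x' ((hlt j k hjk).2 x' hx')]
      exact ((h1 j).2.1 x' hx').2.2.1
    · rw [((h1 k).2.1 x hx).2.2.2 _ (hlt j k hjk).1]
      exact (h1 j).2.2.2.2.2.1
    · rw [(h1 k).2.2.2.2.2.2.2.1 x ((hlt j k hjk).2 x hx)]
      exact ((h1 j).2.1 x hx).2.1
    · rw [(h1 k).2.2.2.2.2.2.2.1 _ (hlt j k hjk).1]
      exact (h1 j).2.2.2.2.2.2.1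
  · intro n x hx x' hx' hne
    rcases lt_or_gt_of_ne hne with h | h
    · exact hsU _ _ ((h1 n).2.2.1 x hx x' hx' h)
    · exact (h1 n).2.2.1 x' hx' x hx h
  · exact fun n x hx => (h1 n).2.2.2.2.2.2.2.2 x hx
  · rintro x y ⟨h3, h4⟩
    exact hUV x y h3 h4

end Run7.h46.V
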