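import Pool.Agent.Run7.h46.V.Gam
import Pool.Agent.Run7.h46.V.Half
import Pool.Agent.Run7.h46.U.Exp

/-! Assembly. -/

namespace Run7.h46.V

open Set Filter Function FirstOrder FirstOrder.Language Run7.h46 Run7.h46.U MeasureTheory

/-- the trichotomy for colourings -/
theorem core (h3 : StV3) (h6 : StV6) {C : Type} [Finite C] {d : ℕ → ℕ → C} (hd : Sw d)
    (hS : Ns d) : CellD d ∨ BlkD d ∨ BlkT d := by
  by_cases hX : Xc d
  · by_cases hT : (TS d).Finite
    · rcases of_finite h3 h6 hd hX hT with h | h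
      · exact Or.inl h
      · exact Or.inr (Or.inl h)
    · exact Or.inr (Or.inl (blkD_of_infinite hd hX hT))
  · exact Or.inr (Or.inr (blkT_of_not_xc hd hS hX))

section relabel

variable {C C' : Type} {g : C → C'} (hg : Injective g) (d : ℕ → ℕ → C)

include hg

theorem DD_rel : DD (fun x y => g (d x y)) = DD d := by
  have h1 : ∀ x y, AE (fun x y => g (d x y)) x y ↔ AE d x y := fun x y => by
    unfold AE
    simp only [hg.eq_iff]
  have h2 : ∀ x y, Lk (fun x y => g (d x y)) x y ↔ Lk d x y := fun x y => by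
    unfold Lk
    simp only [h1, hg.ne_iff]
  unfold DD Cmp
  simp only [h2]

theorem TT_rel : TT (fun x y => g (d x y)) = TT d := by
  have h1 : ∀ x y, Tw (fun x y => g (d x y)) x y ↔ Tw d x y := fun x y => by
    unfold Tw
    simp only [hg.eq_iff]
  unfold TT TC
  simp only [h1]

end relabel

variable {L : FirstOrder.Language.{0, 0}}

/-- the colouring of a structure -/
def dA (A : Str L ℕ) (x y : ℕ) : Set (U.At L 2) := ty A ![x, y]

theorem ty_comp {r r' : ℕ} {A B : Str L ℕ} {x y : Fin r → ℕ} (h : ty A x = ty B y)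
    (σ : Fin r' → Fin r) : ty A (x ∘ σ) = ty B (y ∘ σ) := by
  ext (p | q)
  · have h1 : (Sum.inl (σ p.1, σ p.2) : U.At L r) ∈ ty A x ↔
        (Sum.inl (σ p.1, σ p.2) : U.At L r) ∈ ty B y := by rw [h]
    exact h1
  · have h1 : (Sum.inr ⟨q.1, σ ∘ q.2⟩ : U.At L r) ∈ ty A x ↔
        (Sum.inr ⟨q.1, σ ∘ q.2⟩ : U.At L r) ∈ ty B y := by rw [h]
    exact h1

theorem sw_dA (A : Str L ℕ) : Sw (dA A) := by
  intro x y x' y' h
  have h1 := ty_comp h ![1, 0]
  have h2 : ∀ a b : ℕ, ![a, b] ∘ ![(1 : Fin 2), 0] = ![b, a] := fun a b => by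
    funext i
    fin_cases i <;> rfl
  rw [h2, h2] at h1
  exact h1

theorem dA_pull (A : Str L ℕ) {f : ℕ → ℕ} (hf : Injective f) (x y : ℕ) :
    dA (A.pull f) x y = dA A (f x) (f y) := by
  unfold dA
  rw [ty_pull A hf]
  congr 1
  funext i
  fin_cases i <;> rfl

theorem exists_pair {m : ℕ} (hm : m ≤ 2) (v : Fin m → ℕ) :
    ∃ i j, i < j ∧ ∃ q : Fin m → Fin 2, v = ![j, i] ∘ q := by
  interval_cases m
  · exact ⟨0, 1, by omega, Fin.elim0, funext fun i => i.elim0⟩
  · refine ⟨v 0, v 0 + 1, by omega, fun _ => 1, ?_⟩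
    funext i
    fin_cases i
    rfl
  · rcases lt_trichotomy (v 0) (v 1) with h | h | h
    · refine ⟨v 0, v 1, h, ![1, 0], ?_⟩
      funext i
      fin_cases i <;> rfl
    · refine ⟨v 0, v 0 + 1, by omega, ![1, 1], ?_⟩
      funext i
      fin_cases i
      · rfl
      · exact h.symm
    · refine ⟨v 1, v 0, h, ![0, 1], ?_⟩
      funext i
      fin_cases i <;> rfl

theorem rel_of_dA {A B : Str L ℕ} {R : Σ n, L.Relations n} {x y x' y' : ℕ}
    (h : dA A x y = dA B x' y') (q : Fin R.1 → Fin 2) :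
    A R (![x, y] ∘ q) ↔ B R (![x', y'] ∘ q) := by
  have h1 : (Sum.inr ⟨R, q⟩ : U.At L 2) ∈ dA A x y ↔ (Sum.inr ⟨R, q⟩ : U.At L 2) ∈ dA B x' y' := by
    rw [h]
  exact h1

/-- increasing homogeneous members are symmetric -/
def NoChain (𝒞 : Set (Str L ℕ)) : Prop :=
  ∀ B ∈ 𝒞, (∀ f : ℕ → ℕ, StrictMono f → B.pull f = B) → ∀ g : Equiv.Perm ℕ, B.pull g = B

theorem ns_of_noChain (hr : ∀ R : (Σ n, L.Relations n), R.1 ≤ 2) {𝒞 : Set (Str L ℕ)}
    (hH : Hered 𝒞) (hN : NoChain 𝒞) {A : Str L ℕ} (hA : A ∈ 𝒞) : Ns (dA A) := by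
  intro x hx c hc i j hij
  have hB := hN (A.pull x) (hH A hA x hx.injective) (by
    intro f hf
    funext R v
    obtain ⟨i, j, hij, q, rfl⟩ := exists_pair (hr R) v
    have h1 : dA (A.pull x) j i = dA (A.pull x) (f j) (f i) := by
      rw [dA_pull A hx.injective, dA_pull A hx.injective, hc i j hij, hc _ _ (hf hij)]
    have h2 := rel_of_dA (R := R) h1 q
    have h3 : f ∘ ![j, i] ∘ q = ![f j, f i] ∘ q := by
      funext k
      simp only [comp_apply]
      generalize q k = s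
      fin_cases s <;> rfl
    refine propext ?_
    show (A.pull x) R (f ∘ ![j, i] ∘ q) ↔ _
    rw [h3]
    exact h2.symm) (Equiv.swap i j)
  have h4 : dA (A.pull x) i j = dA (A.pull x) j i := by
    conv_lhs => rw [← hB]
    rw [dA_pull _ (Equiv.swap i j).injective, Equiv.swap_apply_left, Equiv.swap_apply_right]
  rw [dA_pull A hx.injective, dA_pull A hx.injective] at h4
  rw [h4]
  exact hc i j hij

theorem cellular_of_cellD [L.IsRelational] (hr : ∀ R : (Σ n, L.Relations n), R.1 ≤ 2)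
    {A : Str L ℕ} (h : CellD (dA A)) : @IsCellular L ℕ (toS A) := by
  obtain ⟨n, k, K, c, h1, h2, h3, h4, h5⟩ := h
  refine ⟨n, k, K, c, h1, h2, h3, h4, fun i σ => ?_⟩
  obtain ⟨g, g1, g2, g3⟩ := h5 i σ
  refine ⟨@FirstOrder.Language.Equiv.mk L ℕ ℕ (toS A) (toS A) g (fun f _ => isEmptyElim f)
    (fun {m} R v => ?_), g2, g3⟩
  obtain ⟨i, j, hij, q, rfl⟩ := exists_pair (hr ⟨m, R⟩) v
  have h6 := rel_of_dA (R := ⟨m, R⟩) (g1 j i) q
  have h7 : (g : ℕ → ℕ) ∘ ![j, i] ∘ q = ![g j, g i] ∘ q := by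
    funext k
    simp only [comp_apply]
    generalize q k = s
    fin_cases s <;> rfl
  show A ⟨m, R⟩ (g ∘ ![j, i] ∘ q) ↔ A ⟨m, R⟩ (![j, i] ∘ q)
  rw [h7]
  exact h6

theorem red_cellular [L.IsRelational] {A : Str L ℕ} (h : @IsCellular L ℕ (toS A))
    (s : Finset (Σ n, L.Relations n)) : @IsCellular (sub s) ℕ (toS (red s A)) := by
  obtain ⟨n, k, K, c, h1, h2, h3, h4, h5⟩ := h
  refine ⟨n, k, K, c, h1, h2, h3, h4, fun i σ => ?_⟩
  obtain ⟨g, g2, g3⟩ := h5 i σ
  let g0 : Equiv.Perm ℕ := @FirstOrder.Language.Equiv.toEquiv L ℕ ℕ (toS A) (toS A) g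
  refine ⟨@FirstOrder.Language.Equiv.mk (sub s) ℕ ℕ (toS (red s A)) (toS (red s A)) g0
    (fun f _ => isEmptyElim f) (fun {m} R v => ?_), g2, g3⟩
  exact @FirstOrder.Language.Equiv.map_rel' L ℕ ℕ (toS A) (toS A) g m R.1 v

/-- the invariants -/
def Jn (i : ℕ × Bool) (A : Str L ℕ) : Prop :=
  bif i.2 then i.1 ∈ DD (dA A) else i.1 ∈ TT (dA A)

theorem measurable_Jn [Countable (Σ n, L.Relations n)] (h4 : StV4) (i : ℕ × Bool) :
    MeasurableSet {x : Pt L | Jn i (dec x)} := by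
  have hc : Countable (Σ n, L.Relations n × (Fin n → ℕ)) := countable_idx
  have hm : ∀ (a : U.At L 2) (x y : ℕ), MeasurableSet {t : Pt L | a ∈ dA (dec t) x y} := by
    intro a x y
    rcases a with p | q
    · exact MeasurableSet.const (![x, y] p.1 = ![x, y] p.2)
    · have h1 : IsClopen ((fun t : Pt L => t ⟨q.1.1, q.1.2, ![x, y] ∘ q.2⟩) ⁻¹' {true}) :=
        (isClopen_discrete ({true} : Set Bool)).preimage
          (continuous_apply (⟨q.1.1, q.1.2, ![x, y] ∘ q.2⟩ : Σ n, L.Relations n × (Fin n → ℕ)))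
      exact h1.isOpen.measurableSet
  have hd : ∀ x y x' y' : ℕ, MeasurableSet {t : Pt L | dA (dec t) x y = dA (dec t) x' y'} := by
    intro x y x' y'
    have h1 : {t : Pt L | dA (dec t) x y = dA (dec t) x' y'} = ⋂ a : U.At L 2,
        (({t : Pt L | a ∈ dA (dec t) x y} ∩ {t : Pt L | a ∈ dA (dec t) x' y'}) ∪
          ({t : Pt L | a ∈ dA (dec t) x y}ᶜ ∩ {t : Pt L | a ∈ dA (dec t) x' y'}ᶜ)) := by
      ext t
      simp only [mem_setOf_eq, mem_iInter, mem_union, mem_inter_iff, mem_compl_iff]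
      constructor
      · intro h a
        rw [h]
        tauto
      · intro h
        ext a
        have := h a
        tauto
    rw [h1]
    exact MeasurableSet.iInter fun a => ((hm a x y).inter (hm a x' y')).union
      ((hm a x y).compl.inter (hm a x' y').compl)
  have h5 := h4 (Set (U.At L 2)) (Pt L) (fun t => dA (dec t)) hd i.1
  obtain ⟨n, b⟩ := i
  cases b
  · exact h5.2
  · exact h5.1

end Run7.h46.V
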