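import Pool.Agent.Run7.h46.V.Fin

/-! Assembly, second part. -/

namespace Run7.h46.V

open Set Filter Function FirstOrder FirstOrder.Language Run7.h46 Run7.h46.U MeasureTheory

variable {L : FirstOrder.Language.{0, 0}}

theorem meas_ee [L.IsRelational] [Countable (Σ n, L.Relations n)] :
    MeasurableSet {q : Pt L × Pt L | EE (dec q.1) (dec q.2)} := by
  have hc : Countable (Σ n, L.Relations n × (Fin n → ℕ)) := countable_idx
  have hsc : Countable L.Sentence := countable_sentence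
  have hdec : ∀ (R : Σ n, L.Relations n) (a : Fin R.1 → ℕ),
      MeasurableSet {x : Pt L | dec x R a} := fun R a => by
    have h1 : IsClopen ((fun x : Pt L => x ⟨R.1, R.2, a⟩) ⁻¹' {true}) :=
      (isClopen_discrete ({true} : Set Bool)).preimage
        (continuous_apply (⟨R.1, R.2, a⟩ : Σ n, L.Relations n × (Fin n → ℕ)))
    exact h1.isOpen.measurableSet
  have h1 : {q : Pt L × Pt L | EE (dec q.1) (dec q.2)} = ⋂ φ : L.Sentence,
      ({q : Pt L × Pt L | @Sentence.Realize L ℕ (toS (dec q.1)) φ ↔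
        @Sentence.Realize L ℕ (toS (dec q.2)) φ}) := by
    ext q
    rw [mem_iInter]
    exact ee_iff
  rw [h1]
  refine MeasurableSet.iInter fun φ => ?_
  have h2 : MeasurableSet {q : Pt L × Pt L | @Sentence.Realize L ℕ (toS (dec q.1)) φ} :=
    meas_realize (f := fun q : Pt L × Pt L => dec q.1)
      (fun R a => measurable_fst (hdec R a)) φ _ _
  have h3 : MeasurableSet {q : Pt L × Pt L | @Sentence.Realize L ℕ (toS (dec q.2)) φ} :=
    meas_realize (f := fun q : Pt L × Pt L => dec q.2)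
      (fun R a => measurable_snd (hdec R a)) φ _ _
  have h4 : {q : Pt L × Pt L | @Sentence.Realize L ℕ (toS (dec q.1)) φ ↔
      @Sentence.Realize L ℕ (toS (dec q.2)) φ} =
      ({q : Pt L × Pt L | @Sentence.Realize L ℕ (toS (dec q.1)) φ} ∩
        {q : Pt L × Pt L | @Sentence.Realize L ℕ (toS (dec q.2)) φ}) ∪
      ({q : Pt L × Pt L | @Sentence.Realize L ℕ (toS (dec q.1)) φ}ᶜ ∩
        {q : Pt L × Pt L | @Sentence.Realize L ℕ (toS (dec q.2)) φ}ᶜ) := by
    ext q
    simp only [mem_setOf_eq, mem_union, mem_inter_iff, mem_compl_iff]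
    tauto
  rw [h4]
  exact (h2.inter h3).union (h2.compl.inter h3.compl)

theorem polish_pt [Countable (Σ n, L.Relations n)] : PolishSpace (Pt L) := by
  have hc : Countable (Σ n, L.Relations n × (Fin n → ℕ)) := countable_idx
  have h1 : SecondCountableTopology (Pt L) := inferInstance
  have h2 : TopologicalSpace.IsCompletelyMetrizableSpace (Pt L) := inferInstance
  exact {}

/-- Silver's theorem for elementary equivalence and the invariants. -/
theorem silver_inv [L.IsRelational] [Countable (Σ n, L.Relations n)] (h4 : StV4)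
    {𝒞 : Set (Str L ℕ)} (h𝒞 : AnalyticSet {x : Pt L | dec x ∈ 𝒞}) :
    (∃ S : Set (Pt L), S.Countable ∧ (∀ x ∈ S, dec x ∈ 𝒞) ∧
      ∀ A ∈ 𝒞, ∃ y ∈ S, EE A (dec y) ∧ ∀ i, Jn i A ↔ Jn i (dec y)) ∨
    ∃ f : (ℕ → Bool) → Pt L, Continuous f ∧ (∀ b, dec (f b) ∈ 𝒞) ∧
      ∀ b b', b ≠ b' → ¬ (EE (dec (f b)) (dec (f b')) ∧ ∀ i, Jn i (dec (f b)) ↔
        Jn i (dec (f b'))) := by
  have hc : Countable (Σ n, L.Relations n × (Fin n → ℕ)) := countable_idx
  have hP : PolishSpace (Pt L) := polish_pt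
  let E : Pt L → Pt L → Prop := fun x y => EE (dec x) (dec y) ∧ ∀ i, Jn i (dec x) ↔ Jn i (dec y)
  have hE : Equivalence E := ⟨fun x => ⟨ee_iff.2 fun φ => Iff.rfl, fun i => Iff.rfl⟩,
    fun h => ⟨h.1.symm, fun i => (h.2 i).symm⟩,
    fun h h' => ⟨h.1.trans h'.1, fun i => (h.2 i).trans (h'.2 i)⟩⟩
  have hm : MeasurableSet {q : Pt L × Pt L | E q.1 q.2} := by
    have h1 : {q : Pt L × Pt L | E q.1 q.2} = {q : Pt L × Pt L | EE (dec q.1) (dec q.2)} ∩
        ⋂ i : ℕ × Bool, (({q : Pt L × Pt L | Jn i (dec q.1)} ∩ {q : Pt L × Pt L | Jn i (dec q.2)}) ∪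
          ({q : Pt L × Pt L | Jn i (dec q.1)}ᶜ ∩ {q : Pt L × Pt L | Jn i (dec q.2)}ᶜ)) := by
      ext q
      simp only [E, mem_setOf_eq, mem_iInter, mem_union, mem_inter_iff, mem_compl_iff]
      constructor
      · rintro ⟨a, b⟩
        refine ⟨a, fun i => ?_⟩
        have := b i
        tauto
      · rintro ⟨a, b⟩
        refine ⟨a, fun i => ?_⟩
        have := b i
        tauto
    rw [h1]
    refine meas_ee.inter (MeasurableSet.iInter fun i => ?_)
    have e1 : MeasurableSet {q : Pt L × Pt L | Jn i (dec q.1)} := measurable_fst (measurable_Jn h4 i)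
    have e2 : MeasurableSet {q : Pt L × Pt L | Jn i (dec q.2)} := measurable_snd (measurable_Jn h4 i)
    exact (e1.inter e2).union (e1.compl.inter e2.compl)
  rcases Pool.Agent.H579R3.SV.silver hE hm h𝒞 with ⟨S, h1, h2, h3⟩ | ⟨f, h1, h2, h3⟩
  · refine Or.inl ⟨S, h2, fun x hx => h1 hx, fun A hA => ?_⟩
    have h4 : enc A ∈ {x : Pt L | dec x ∈ 𝒞} := by
      rw [mem_setOf_eq, dec_enc]
      exact hA
    obtain ⟨y, hy, hxy⟩ := h3 _ h4
    have h5 : EE (dec (enc A)) (dec y) ∧ ∀ i, Jn i (dec (enc A)) ↔ Jn i (dec y) := hxy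
    rw [dec_enc] at h5
    exact ⟨y, hy, h5⟩
  · exact Or.inr ⟨f, h1, h2, h3⟩

/-- the invariants are isomorphism invariant -/
theorem Jn_iso (h5 : StV5) {A B : Str L ℕ} (h : RIso A B) (i : ℕ × Bool) : Jn i A ↔ Jn i B := by
  obtain ⟨e, he⟩ := h
  have h1 : A = B.pull e := by
    funext R v
    exact propext (he R v)
  have h2 : dA A = fun x y => dA B (e x) (e y) := by
    funext x y
    rw [h1, dA_pull B e.injective]
  have h3 := h5 _ (dA B) e
  rw [← h2] at h3
  unfold Jn
  rw [h3.1, h3.2]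

/-- uncountably many invariants -/
theorem no_family {𝒞 : Set (Str L ℕ)} (hH : Hered 𝒞) {S : Set (Pt L)} (hS : S.Countable)
    {T : Str L ℕ → Set ℕ} (hT : ∀ A ∈ 𝒞, ∃ y ∈ S, T A = T (dec y)) {A : Str L ℕ} (hA : A ∈ 𝒞)
    {f : Set ℕ → ℕ → ℕ} (hf : ∀ X, Injective (f X))
    (hfT : ∀ X Y, X ≠ Y → T (A.pull (f X)) ≠ T (A.pull (f Y))) : False := by
  choose y hy hy' using fun X => hT (A.pull (f X)) (hH A hA _ (hf X))
  have hinj : Injective y := by
    intro X Y hXY
    by_contra hne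
    refine hfT X Y hne ?_
    rw [hy' X, hXY, ← hy' Y]
  have h5 : (range y).Countable := hS.mono (range_subset_iff.2 hy)
  have h6 : Countable (Set ℕ) := by
    have : Countable (range y) := h5.to_subtype
    exact Injective.countable (f := rangeFactorization y) fun a b hab =>
      hinj (congrArg Subtype.val hab)
  obtain ⟨u, hu⟩ := exists_injective_nat (Set ℕ)
  exact cantor_injective u hu

/-- **Theorem** for analytic hereditary classes of binary structures. -/
theorem main_bin (h3 : StV3) (h4 : StV4) (h5 : StV5) (h6 : StV6) (h7 : StV7) (h8 : StV8)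
    [L.IsRelational] [Countable (Σ n, L.Relations n)]
    (hr : ∀ R : (Σ n, L.Relations n), R.1 ≤ 2) {𝒞 : Set (Str L ℕ)} (hH : Hered 𝒞)
    (hN : NoChain 𝒞) (h𝒞 : AnalyticSet {x : Pt L | dec x ∈ 𝒞}) :
    ((∃ g : ℕ → Str L ℕ, ∀ A ∈ 𝒞, ∃ n, RIso A (g n)) ∧ ∀ A ∈ 𝒞, @IsCellular L ℕ (toS A)) ∨
    ∃ f : (ℕ → Bool) → Pt L, Continuous f ∧ (∀ b, dec (f b) ∈ 𝒞) ∧
      ∀ b b', b ≠ b' → ¬ RIso (dec (f b)) (dec (f b')) := by
  rcases silver_inv h4 h𝒞 with ⟨S, hS, hS0, hS1⟩ | ⟨f, f1, f2, f3⟩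
  · left
    have hS2 : ∀ A ∈ 𝒞, ∃ y ∈ S, EE A (dec y) := fun A hA => by
      obtain ⟨y, hy, hy', _⟩ := hS1 A hA
      exact ⟨y, hy, hy'⟩
    have hcell : ∀ A ∈ 𝒞, @IsCellular L ℕ (toS A) := by
      intro A hA
      have hfin : Finite (Tp A 2) := (finite_tp hH hS hS2 hA 2).to_subtype
      let d : ℕ → ℕ → Tp A 2 := fun x y => ⟨dA A x y, ⟨![x, y], rfl⟩⟩
      have hd : Sw d := fun x y x' y' h =>
        Subtype.ext (sw_dA A x y x' y' (congrArg Subtype.val h))
      have hNs : Ns d := fun x hx c hc i j hij =>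
        Subtype.ext (ns_of_noChain hr hH hN hA x hx c.1
          (fun i j hij => congrArg Subtype.val (hc i j hij)) i j hij)
      rcases core h3 h6 hd hNs with h | h | h
      · apply cellular_of_cellD hr
        obtain ⟨n, k, K, c, c1, c2, c3, c4, c5⟩ := h
        refine ⟨n, k, K, c, c1, c2, c3, c4, fun i σ => ?_⟩
        obtain ⟨g, g1, g2⟩ := c5 i σ
        exact ⟨g, fun x y => congrArg Subtype.val (g1 x y), g2⟩
      · exfalso
        obtain ⟨f, f1, f2⟩ := h7 _ d hd h
        refine no_family (T := fun B => DD (dA B)) hH hS (fun B hB => ?_) hA f1 fun X Y hXY => ?_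
        · obtain ⟨y, hy, _, hy'⟩ := hS1 B hB
          refine ⟨y, hy, ?_⟩
          ext n
          exact hy' (n, true)
        · have e1 : ∀ X, DD (dA (A.pull (f X))) = DD (fun x y => d (f X x) (f X y)) := fun X => by
            rw [← DD_rel (g := (Subtype.val : Tp A 2 → _)) Subtype.val_injective]
            congr 1
            funext x y
            exact dA_pull A (f1 X) x y
          rw [e1, e1]
          exact f2 X Y hXY
      · exfalso
        obtain ⟨f, f1, f2⟩ := h8 _ d hd h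
        refine no_family (T := fun B => TT (dA B)) hH hS (fun B hB => ?_) hA f1 fun X Y hXY => ?_
        · obtain ⟨y, hy, _, hy'⟩ := hS1 B hB
          refine ⟨y, hy, ?_⟩
          ext n
          exact hy' (n, false)
        · have e1 : ∀ X, TT (dA (A.pull (f X))) = TT (fun x y => d (f X x) (f X y)) := fun X => by
            rw [← TT_rel (g := (Subtype.val : Tp A 2 → _)) Subtype.val_injective]
            congr 1
            funext x y
            exact dA_pull A (f1 X) x y
          rw [e1, e1]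
          exact f2 X Y hXY
    exact ⟨countable_of_reducts hr hH (fun A hA s => red_cellular (hcell A hA) s) hS hS0 hS2,
      hcell⟩
  · refine Or.inr ⟨f, f1, f2, fun b b' hbb h => f3 b b' hbb ⟨h.ee, fun i => Jn_iso h5 h i⟩⟩

/-- the substructures of one structure -/
def Subs (A : Str L ℕ) : Set (Str L ℕ) := {B | ∃ f : ℕ → ℕ, Injective f ∧ B = A.pull f}

theorem hered_subs (A : Str L ℕ) : Hered (Subs A) := by
  rintro _ ⟨f, hf, rfl⟩ g hg
  exact ⟨f ∘ g, hf.comp hg, rfl⟩

theorem analytic_subs [Countable (Σ n, L.Relations n)] (x : Pt L) :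
    AnalyticSet {y : Pt L | dec y ∈ Subs (dec x)} := by
  have hP : PolishSpace (Pt L) := polish_pt
  let g : (ℕ → ℕ) → Pt L := fun f p => x ⟨p.1, p.2.1, f ∘ p.2.2⟩
  have hg : Continuous g := by
    refine continuous_pi fun p => ?_
    have h1 : Continuous fun f : ℕ → ℕ => f ∘ p.2.2 :=
      continuous_pi fun i => continuous_apply _
    exact (continuous_of_discreteTopology (f := fun v : Fin p.1 → ℕ => x ⟨p.1, p.2.1, v⟩)).comp h1
  have hcl : IsClosed {f : ℕ → ℕ | Injective f} := by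
    have h1 : {f : ℕ → ℕ | Injective f} = ⋂ (a : ℕ) (b : ℕ), {f : ℕ → ℕ | f a = f b → a = b} := by
      ext f
      simp only [mem_setOf_eq, mem_iInter]
      rfl
    rw [h1]
    refine isClosed_iInter fun a => isClosed_iInter fun b => ?_
    by_cases hab : a = b
    · simp [hab]
    · have h2 : {f : ℕ → ℕ | f a = f b → a = b} = {f : ℕ → ℕ | f a = f b}ᶜ := by
        ext f
        simp [hab]
      rw [h2]
      have h3 : IsClopen ((fun f : ℕ → ℕ => (f a, f b)) ⁻¹' {q : ℕ × ℕ | q.1 = q.2}) :=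
        (isClopen_discrete _).preimage ((continuous_apply a).prodMk (continuous_apply b))
      exact h3.compl.isClosed
  have h1 : {y : Pt L | dec y ∈ Subs (dec x)} = g '' {f : ℕ → ℕ | Injective f} := by
    ext y
    constructor
    · rintro ⟨f, hf, hfy⟩
      refine ⟨f, hf, ?_⟩
      funext p
      have h5 := congrFun (congrFun hfy ⟨p.1, p.2.1⟩) p.2.2
      have h6 : (y p = true) = (x ⟨p.1, p.2.1, f ∘ p.2.2⟩ = true) := h5
      exact (Bool.eq_iff_iff.2 (iff_of_eq h6)).symm
    · rintro ⟨f, hf, rfl⟩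
      exact ⟨f, hf, rfl⟩
  rw [h1]
  exact hcl.analyticSet.image_of_continuous hg

end Run7.h46.V
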