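import Pool.Agent.Run7.h46.V.Star

/-! Finitely many types. -/

namespace Run7.h46.V

open Set Filter Function

variable {C : Type} [Finite C]

theorem np_hyper : Np (hyperfilter ℕ) := fun n => by
  have h : ∀ᶠ x in (cofinite : Filter ℕ), n ≤ x := by
    rw [Nat.cofinite_eq_atTop]
    exact eventually_ge_atTop n
  exact hyperfilter_le_cofinite h

/-- finitely many functions are separated by a finite set -/
theorem exists_sepN {P : Set (ℕ → C)} (hP : P.Finite) :
    ∃ N : ℕ, ∀ a ∈ P, ∀ b ∈ P, (∀ z < N, a z = b z) → a = b := by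
  classical
  have h1 : ∀ a b : ℕ → C, ∃ n : ℕ, (∀ z < n, a z = b z) → a = b := by
    intro a b
    by_cases h : a = b
    · exact ⟨0, fun _ => h⟩
    · obtain ⟨z, hz⟩ := ne_iff.1 h
      exact ⟨z + 1, fun h2 => absurd (h2 z (Nat.lt_succ_self z)) hz⟩
  choose f hf using h1
  refine ⟨hP.toFinset.sup fun a => hP.toFinset.sup fun b => f a b, fun a ha b hb h => ?_⟩
  refine hf a b fun z hz => h z (hz.trans_le ?_)
  exact (Finset.le_sup (f := fun b => f a b) (hP.mem_toFinset.2 hb)).trans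
    (Finset.le_sup (f := fun a => hP.toFinset.sup fun b => f a b) (hP.mem_toFinset.2 ha))

theorem of_finite (h3 : StV3) (h6 : StV6) {d : ℕ → ℕ → C} (hd : Sw d) (hX : Xc d)
    (hT : (TS d).Finite) : CellD d ∨ BlkD d := by
  classical
  have hTf : Finite (TS d) := hT.to_subtype
  choose U hU hUe using fun a : TS d => a.2
  let δ : TS d → TS d → C := fun a b => dl d (U a) (U b)
  have hTn : Nonempty (TS d) := ⟨⟨_, hyperfilter ℕ, np_hyper, rfl⟩⟩
  let tU : ∀ V : Ultrafilter ℕ, Np V → TS d := fun V hV => ⟨tp d V, V, hV, rfl⟩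
  -- the colour does not depend on the representative
  have hD1 : ∀ (V : Ultrafilter ℕ) (hV : Np V) (b : TS d), dl d (U b) V = δ b (tU V hV) := by
    intro V hV b
    have e1 : dl d V (U b) = dl d (U (tU V hV)) (U b) := by
      unfold dl
      rw [hUe (tU V hV)]
    obtain ⟨x, y, a1, a2⟩ := hX V (U b) hV (hU b)
    obtain ⟨x', y', b1, b2⟩ := hX (U (tU V hV)) (U b) (hU _) (hU b)
    rw [← a2, show δ b (tU V hV) = dl d (U b) (U (tU V hV)) from rfl, ← b2]
    exact hd x y x' y' (a1.trans (e1.trans b1.symm))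
  obtain ⟨N, hN⟩ := exists_sepN hT
  let lab : ℕ → TS d := fun x => if h : ∃ a : TS d, ∀ z < N, d x z = a.1 z then h.choose
    else Classical.arbitrary _
  have hlab : ∀ (V : Ultrafilter ℕ) (hV : Np V), ∀ᶠ x in (V : Filter ℕ), lab x = tU V hV := by
    intro V hV
    refine (tp_spec_lt d V N).mono fun x hx => ?_
    have hex : ∃ a : TS d, ∀ z < N, d x z = a.1 z := ⟨tU V hV, hx⟩
    have e1 : lab x = hex.choose := dif_pos hex
    rw [e1]
    apply Subtype.ext
    exact hN _ hex.choose.2 _ (tU V hV).2 fun z hz => by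
      rw [← hex.choose_spec z hz]
      exact hx z hz
  have hF1 : ∀ x, ∀ᶠ y in cofinite, d y x = (lab y).1 x := fun x =>
    cofinite_of_np fun V hV => by
      filter_upwards [hlab V hV, tp_spec d V x] with y hy1 hy2
      rw [hy1]
      exact hy2
  let G₀ : Set ℕ := {x | ∀ b : TS d, b.1 x = δ b (lab x)}
  have hF2 : ∀ᶠ x in cofinite, x ∈ G₀ := cofinite_of_np fun V hV => by
    have e1 : ∀ᶠ x in (V : Filter ℕ), ∀ b : TS d, tp d (U b) x = dl d (U b) V :=
      eventually_all.2 fun b => dl_spec d (U b) V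
    filter_upwards [hlab V hV, e1] with x hx1 hx2
    intro b
    rw [hx1, ← hD1 V hV b, ← hx2 b, hUe]
  have hF3 : ∀ (a b : TS d) (x y : ℕ), d x y = δ a b ↔ d y x = δ b a := fun a b x y =>
    hX.iff hd (hU a) (hU b) x y
  let E : ℕ → ℕ → Prop := fun x y => x ∈ G₀ ∧ y ∈ G₀ ∧ d x y ≠ δ (lab x) (lab y)
  have hEs : ∀ x y, E x y → E y x := fun x y h =>
    ⟨h.2.1, h.1, fun h' => h.2.2 ((hF3 _ _ _ _).2 h')⟩
  have hEf : ∀ x, {y | E x y}.Finite := by
    intro x
    by_cases hx : x ∈ G₀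
    · have e1 : {y | ¬ d y x = (lab y).1 x}.Finite := hF1 x
      refine e1.subset fun y hy h => hy.2.2 ?_
      rw [hF3]
      rw [h]
      exact hx (lab y)
    · refine Set.Finite.subset Set.finite_empty fun y hy => hx hy.1
  rcases h6 E hEs hEf with ⟨K, cmp, c1, c2, c3, c4⟩ | hbig
  · left
    refine h3 C (TS d) d lab δ (fun a x => a.1 x) G₀ K cmp hd hF2 hF1 c1 c2 c3 ?_
    intro x y hx hy hxy
    by_contra hcon
    exact hxy (c4 x y ⟨hx, hy, hcon⟩)
  · right
    -- beyond `n₀` all points are good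
    have hG : G₀ᶜ.Finite := hF2
    obtain ⟨n₁, hn₁⟩ := hG.bddAbove
    let n₀ := n₁ + 1
    have hn₀ : ∀ x, n₀ ≤ x → x ∈ G₀ := fun x hx => by
      by_contra hcon
      have := hn₁ hcon
      omega
    choose W w1 w2 w3 w4 using hbig
    -- the set of labels
    obtain ⟨Λ, hΛ⟩ := exists_ulim (hyperfilter ℕ) (fun n => lab '' (W n : Set ℕ))
    have hQ : ∀ n, ∃ B : Finset ℕ, (∀ x ∈ B, n ≤ x ∧ n₀ ≤ x) ∧ n < B.card ∧
        (∀ x ∈ B, ∀ u < n, ¬ E x u) ∧
        (∀ G ⊆ B, G.Nonempty → G ≠ B → ∃ x ∈ G, ∃ y ∈ B, y ∉ G ∧ E x y) ∧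
        lab '' (B : Set ℕ) = Λ := by
      intro n
      obtain ⟨k, hk1, hk2⟩ := (hΛ.and (np_hyper (n + n₀))).exists
      exact ⟨W k, fun x hx => ⟨by have := w1 k x hx; omega, by have := w1 k x hx; omega⟩,
        by have := w2 k; omega, fun x hx u hu => w3 k x hx u (by omega), w4 k, hk1⟩
    obtain ⟨B, m, b1, b2⟩ := exists_seq (fun B : Finset ℕ => B) _ hQ
    have hcol : ∀ j k, j < k → ∀ x ∈ B j, ∀ y ∈ B k, d y x = δ (lab y) (lab x) := by
      intro j k hjk x hx y hy
      by_contra hcon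
      refine (b1 k).2.2.1 y hy x ((b2 j k hjk).1 x hx) ⟨hn₀ y ((b1 k).1 y hy).2,
        hn₀ x ((b1 j).1 x hx).2, hcon⟩
    have hdis : ∀ j k, j < k → Disjoint (B j) (B k) := by
      intro j k hjk
      rw [Finset.disjoint_left]
      intro x hx hx'
      have e1 := (b2 j k hjk).1 x hx
      have e2 := ((b1 k).1 x hx').1
      omega
    refine ⟨TS d, δ, B, fun _ => lab, ?_, ?_, ?_, ?_, ?_, ?_⟩
    · have := (b1 0).2.1
      exact Finset.card_pos.1 (by omega)
    · intro j k hjk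
      have e1 := (b2 j k hjk).2.1
      have e2 := (b1 k).2.1
      omega
    · intro j k hjk
      rcases lt_or_gt_of_ne hjk with h | h
      · exact hdis j k h
      · exact (hdis k j h).symm
    · intro j k hjk x hx y hy
      rcases lt_or_gt_of_ne hjk with h | h
      · exact (hF3 _ _ _ _).1 (hcol j k h x hx y hy)
      · exact hcol k j h y hy x hx
    · intro j k x hx
      have e1 : lab x ∈ lab '' (B k : Set ℕ) := by
        rw [(b1 k).2.2.2.2, ← (b1 j).2.2.2.2]
        exact ⟨x, hx, rfl⟩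
      obtain ⟨y, hy, hyx⟩ := e1
      exact ⟨y, hy, hyx⟩
    · intro k G hG hGn hGne
      obtain ⟨x, hx, y, hy, hyG, hxy⟩ := (b1 k).2.2.2.1 G hG hGn hGne
      exact ⟨x, hx, y, hy, hyG, hxy.2.2⟩

end Run7.h46.V
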