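import Pool.Agent.Run7.h46.V.Defs

/-! Limits of colours along ultrafilters, sequences of blocks. -/

namespace Run7.h46.V

open Set Filter Function

section lim

variable {C : Type} [Finite C]

theorem exists_ulim {α : Type} (U : Ultrafilter α) (f : α → C) :
    ∃ c, ∀ᶠ x in (U : Filter α), f x = c :=
  Ultrafilter.eventually_exists_iff.1 (Eventually.of_forall fun x => ⟨f x, rfl⟩)

/-- the limit of colours along an ultrafilter -/
noncomputable def ul {α : Type} (U : Ultrafilter α) (f : α → C) : C := (exists_ulim U f).choose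

theorem ul_spec {α : Type} (U : Ultrafilter α) (f : α → C) :
    ∀ᶠ x in (U : Filter α), f x = ul U f := (exists_ulim U f).choose_spec

theorem ul_eq {α : Type} {U : Ultrafilter α} {f : α → C} {c : C}
    (h : ∀ᶠ x in (U : Filter α), f x = c) : ul U f = c := by
  obtain ⟨x, hx1, hx2⟩ := ((ul_spec U f).and h).exists
  exact hx1.symm.trans hx2

/-- the colour of (generic point, u) -/
noncomputable def tp (d : ℕ → ℕ → C) (U : Ultrafilter ℕ) (u : ℕ) : C := ul U (fun x => d x u)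

theorem tp_spec (d : ℕ → ℕ → C) (U : Ultrafilter ℕ) (u : ℕ) :
    ∀ᶠ x in (U : Filter ℕ), d x u = tp d U u := ul_spec U _

/-- the colour of (later generic point for `U`, earlier generic point for `V`) -/
noncomputable def dl (d : ℕ → ℕ → C) (U V : Ultrafilter ℕ) : C := ul V (tp d U)

theorem dl_spec (d : ℕ → ℕ → C) (U V : Ultrafilter ℕ) :
    ∀ᶠ u in (V : Filter ℕ), tp d U u = dl d U V := ul_spec V _

/-- non-principal ultrafilters on `ℕ` -/
def Np (U : Ultrafilter ℕ) : Prop := ∀ n : ℕ, ∀ᶠ x in (U : Filter ℕ), n ≤ x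

theorem tp_spec_lt (d : ℕ → ℕ → C) (U : Ultrafilter ℕ) (n : ℕ) :
    ∀ᶠ x in (U : Filter ℕ), ∀ u < n, d x u = tp d U u := by
  have h := (Finset.range n).eventually_all (l := (U : Filter ℕ)) (p := fun u x => d x u = tp d U u)
  have h1 := h.2 fun u _ => tp_spec d U u
  exact h1.mono fun x hx u hu => hx u (Finset.mem_range.2 hu)

/-- exchange -/
def Xc (d : ℕ → ℕ → C) : Prop :=
  ∀ U V : Ultrafilter ℕ, Np U → Np V → ∃ x y, d x y = dl d U V ∧ d y x = dl d V U

theorem Xc.iff {d : ℕ → ℕ → C} (hX : Xc d) (hd : Sw d) {U V : Ultrafilter ℕ} (hU : Np U)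
    (hV : Np V) (x y : ℕ) : d x y = dl d U V ↔ d y x = dl d V U := by
  obtain ⟨a, b, h1, h2⟩ := hX U V hU hV
  constructor
  · intro h
    rw [hd x y a b (h.trans h1.symm), h2]
  · intro h
    rw [hd y x b a (h.trans h2.symm), h1]

end lim

theorem Np.infinite {U : Ultrafilter ℕ} (hU : Np U) {φ : ℕ → Prop}
    (h : ∀ᶠ x in (U : Filter ℕ), φ x) : {x | φ x}.Infinite := by
  intro hfin
  obtain ⟨m, hm⟩ := hfin.bddAbove
  obtain ⟨x, hx1, hx2⟩ := (h.and (hU (m + 1))).exists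
  have := hm hx1
  omega

theorem Np.exists_finset {U : Ultrafilter ℕ} (hU : Np U) {φ : ℕ → Prop}
    (h : ∀ᶠ x in (U : Filter ℕ), φ x) (N : ℕ) : ∃ W : Finset ℕ, W.card = N ∧ ∀ x ∈ W, φ x := by
  obtain ⟨W, hW1, hW2⟩ := (hU.infinite h).exists_subset_card_eq N
  exact ⟨W, hW2, fun x hx => hW1 hx⟩

theorem cofinite_of_np {φ : ℕ → Prop}
    (h : ∀ U : Ultrafilter ℕ, Np U → ∀ᶠ x in (U : Filter ℕ), φ x) : ∀ᶠ x in cofinite, φ x := by
  by_contra hcon
  have h1 : ∃ᶠ x in (cofinite : Filter ℕ), ¬ φ x := not_eventually.1 hcon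
  have h2 : NeBot (cofinite ⊓ 𝓟 {x : ℕ | ¬ φ x}) := frequently_mem_iff_neBot.1 h1
  let U := Ultrafilter.of (cofinite ⊓ 𝓟 {x : ℕ | ¬ φ x})
  have hU : (U : Filter ℕ) ≤ cofinite ⊓ 𝓟 {x : ℕ | ¬ φ x} := Ultrafilter.of_le _
  have h3 : Np U := fun n => by
    have h4 : ∀ᶠ x in (cofinite : Filter ℕ), n ≤ x := by
      rw [Nat.cofinite_eq_atTop]
      exact eventually_ge_atTop n
    exact (hU.trans inf_le_left) h4
  have h5 : ∀ᶠ x in (U : Filter ℕ), ¬ φ x := (hU.trans inf_le_right) (mem_principal_self _)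
  obtain ⟨x, hx1, hx2⟩ := ((h U h3).and h5).exists
  exact hx2 hx1

/-- sequences of blocks -/
theorem exists_seq {𝔅 : Type} (supp : 𝔅 → Finset ℕ) (Q : ℕ → 𝔅 → Prop) (hQ : ∀ n, ∃ B, Q n B) :
    ∃ (B : ℕ → 𝔅) (m : ℕ → ℕ), (∀ k, Q (m k) (B k)) ∧
      ∀ j k, j < k → (∀ x ∈ supp (B j), x < m k) ∧ (supp (B j)).card ≤ m k ∧ m j < m k := by
  choose g hg using hQ
  let s : ℕ → ℕ := fun n => n + ((supp (g n)).sup id + 1 + (supp (g n)).card)
  let m : ℕ → ℕ := fun k => Nat.rec 0 (fun _ r => s r) k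
  have hm : ∀ k, m (k + 1) = s (m k) := fun k => rfl
  have hs : StrictMono m := strictMono_nat_of_lt_succ fun k => by
    rw [hm]
    simp only [s]
    omega
  refine ⟨fun k => g (m k), m, fun k => hg _, fun j k hjk => ?_⟩
  have h1 : m (j + 1) ≤ m k := hs.monotone hjk
  have h2 : m (j + 1) = m j + ((supp (g (m j))).sup id + 1 + (supp (g (m j))).card) := rfl
  have h4 : (supp (g (m j))).card ≤ m k := by omega
  refine ⟨fun x hx => ?_, h4, hs hjk⟩
  have h3 : x ≤ (supp (g (m j))).sup id := Finset.le_sup (f := id) hx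
  omega

end Run7.h46.V
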