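import Pool.Agent.Run7.h46.V.Lim

/-! Infinitely many types: stars. -/

namespace Run7.h46.V

open Set Filter Function

variable {C : Type} [Finite C]

/-- the types of generic points -/
def TS (d : ℕ → ℕ → C) : Set (ℕ → C) := {q | ∃ U : Ultrafilter ℕ, Np U ∧ tp d U = q}

theorem ev_bind {U : ℕ → Ultrafilter ℕ} {V : Ultrafilter ℕ} {φ : ℕ → Prop} :
    (∀ᶠ x in (V.bind U : Filter ℕ), φ x) ↔
      ∀ᶠ k in (V : Filter ℕ), ∀ᶠ x in (U k : Filter ℕ), φ x := Iff.rfl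

theorem blkD_of_infinite {d : ℕ → ℕ → C} (hd : Sw d) (hX : Xc d) (hT : (TS d).Infinite) :
    BlkD d := by
  classical
  let e := Set.Infinite.natEmbedding _ hT
  choose U hU hUe using fun k => (e k).2
  let V : Ultrafilter ℕ := hyperfilter ℕ
  let 𝒬 : Ultrafilter ℕ := V.bind U
  have h𝒬 : Np 𝒬 := fun n => ev_bind.2 (Eventually.of_forall fun k => hU k n)
  -- convergence
  have hq : ∀ u, ∀ᶠ k in (V : Filter ℕ), tp d (U k) u = tp d 𝒬 u := fun u =>
    (ev_bind.1 (tp_spec d 𝒬 u)).mono fun k hk => ul_eq hk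
  have hne : ∀ᶠ k in (V : Filter ℕ), tp d (U k) ≠ tp d 𝒬 := by
    have h1 : {k | tp d (U k) = tp d 𝒬}.Finite := by
      apply Set.Subsingleton.finite
      intro a ha b hb
      have h2 : (e a).1 = (e b).1 := by
        rw [← hUe a, ← hUe b]
        exact (show tp d (U a) = tp d 𝒬 from ha).trans (show tp d (U b) = tp d 𝒬 from hb).symm
      exact e.injective (Subtype.ext h2)
    exact hyperfilter_le_cofinite h1.compl_mem_cofinite
  let y : ℕ → ℕ := fun k => if h : tp d (U k) ≠ tp d 𝒬 then (ne_iff.1 h).choose else 0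
  have hy : ∀ᶠ k in (V : Filter ℕ), tp d (U k) (y k) ≠ tp d 𝒬 (y k) := by
    refine hne.mono fun k hk => ?_
    have h1 : y k = (ne_iff.1 hk).choose := dif_pos hk
    rw [h1]
    exact (ne_iff.1 hk).choose_spec
  let 𝒴 : Ultrafilter ℕ := V.map y
  have ev_Y : ∀ {φ : ℕ → Prop}, (∀ᶠ x in (𝒴 : Filter ℕ), φ x) ↔
      ∀ᶠ k in (V : Filter ℕ), φ (y k) := Iff.rfl
  have h𝒴 : Np 𝒴 := by
    intro n
    rw [ev_Y]
    have h1 := (Finset.range n).eventually_all (l := (V : Filter ℕ))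
      (p := fun u k => tp d (U k) u = tp d 𝒬 u)
    have h2 := h1.2 fun u _ => hq u
    filter_upwards [h2, hy] with k hk1 hk2
    by_contra hcon
    exact hk2 (hk1 _ (Finset.mem_range.2 (not_le.1 hcon)))
  let Us : Bool → Ultrafilter ℕ := fun s => bif s then 𝒬 else 𝒴
  have hUs : ∀ s, Np (Us s) := by
    intro s
    cases s
    · exact h𝒴
    · exact h𝒬
  let Q : ℕ → Finset ℕ × ℕ → Prop := fun n B =>
    B.1.card = n + 1 ∧ B.2 ∉ B.1 ∧ n ≤ B.2 ∧ (∀ x ∈ B.1, n ≤ x) ∧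
      (∀ u < n, d B.2 u = tp d 𝒴 u) ∧ (∀ x ∈ B.1, ∀ u < n, d x u = tp d 𝒬 u) ∧
      (∀ s, tp d (Us s) B.2 = dl d (Us s) 𝒴) ∧ (∀ x ∈ B.1, ∀ s, tp d (Us s) x = dl d (Us s) 𝒬) ∧
      ∀ x ∈ B.1, d x B.2 ≠ dl d 𝒬 𝒴
  have hQ : ∀ n, ∃ B, Q n B := by
    intro n
    have e1 : ∀ᶠ k in (V : Filter ℕ), n ≤ y k := ev_Y.1 (h𝒴 n)
    have e2 : ∀ᶠ k in (V : Filter ℕ), ∀ u < n, d (y k) u = tp d 𝒴 u := ev_Y.1 (tp_spec_lt d 𝒴 n)
    have e3 : ∀ᶠ k in (V : Filter ℕ), ∀ s, tp d (Us s) (y k) = dl d (Us s) 𝒴 :=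
      eventually_all.2 fun s => ev_Y.1 (dl_spec d (Us s) 𝒴)
    have e4 : ∀ᶠ k in (V : Filter ℕ), ∀ᶠ x in (U k : Filter ℕ), ∀ s,
        tp d (Us s) x = dl d (Us s) 𝒬 :=
      ev_bind.1 (eventually_all.2 fun s => dl_spec d (Us s) 𝒬)
    have e5 : ∀ᶠ k in (V : Filter ℕ), ∀ᶠ x in (U k : Filter ℕ), ∀ u < n, d x u = tp d 𝒬 u :=
      ev_bind.1 (tp_spec_lt d 𝒬 n)
    obtain ⟨k, k1, k2, k3, k4, k5, k6⟩ := (e1.and (e2.and (e3.and (e4.and (e5.and hy))))).exists
    have e6 : ∀ᶠ x in (U k : Filter ℕ), (n ≤ x ∧ x ≠ y k) ∧ (∀ u < n, d x u = tp d 𝒬 u) ∧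
        (∀ s, tp d (Us s) x = dl d (Us s) 𝒬) ∧ d x (y k) = tp d (U k) (y k) := by
      filter_upwards [hU k n, hU k (y k + 1), k5, k4, tp_spec d (U k) (y k)] with x a1 a2 a3 a4 a5
      exact ⟨⟨a1, by omega⟩, a3, a4, a5⟩
    obtain ⟨W, hW1, hW2⟩ := (hU k).exists_finset e6 (n + 1)
    refine ⟨(W, y k), hW1, fun h => (hW2 _ h).1.2 rfl, k1, fun x hx => (hW2 x hx).1.1, k2,
      fun x hx => (hW2 x hx).2.1, k3, fun x hx => (hW2 x hx).2.2.1, fun x hx => ?_⟩
    show d x (y k) ≠ _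
    rw [(hW2 x hx).2.2.2, ← show tp d 𝒬 (y k) = dl d 𝒬 𝒴 from k3 true]
    exact k6
  obtain ⟨B, m, h1, h2⟩ := exists_seq (fun B : Finset ℕ × ℕ => insert B.2 B.1) Q hQ
  let lab : ℕ → ℕ → Bool := fun k x => decide (x ≠ (B k).2)
  have hge : ∀ k, ∀ x ∈ insert (B k).2 (B k).1, m k ≤ x := by
    intro k x hx
    rcases Finset.mem_insert.1 hx with rfl | hx
    · exact (h1 k).2.2.1
    · exact (h1 k).2.2.2.1 x hx
  have hdis : ∀ j k, j < k → Disjoint (insert (B j).2 (B j).1) (insert (B k).2 (B k).1) := by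
    intro j k hjk
    rw [Finset.disjoint_left]
    intro x hx hx'
    have h3 := (h2 j k hjk).1 x hx
    have h4 := hge k x hx'
    omega
  have hlabc : ∀ k, lab k (B k).2 = false := fun k => by simp [lab]
  have hlabl : ∀ k, ∀ x ∈ (B k).1, lab k x = true := fun k x hx => by
    simp only [lab, decide_eq_true_eq]
    rintro rfl
    exact (h1 k).2.1 hx
  -- later points see earlier points by their types
  have hA : ∀ k, ∀ x ∈ insert (B k).2 (B k).1, ∀ u < m k, d x u = tp d (Us (lab k x)) u := by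
    intro k x hx u hu
    rcases Finset.mem_insert.1 hx with rfl | hx
    · rw [hlabc]
      exact (h1 k).2.2.2.2.1 u hu
    · rw [hlabl k x hx]
      exact (h1 k).2.2.2.2.2.1 x hx u hu
  have hB : ∀ k, ∀ x ∈ insert (B k).2 (B k).1, ∀ s, tp d (Us s) x = dl d (Us s) (Us (lab k x)) := by
    intro k x hx s
    rcases Finset.mem_insert.1 hx with rfl | hx
    · rw [hlabc]
      exact (h1 k).2.2.2.2.2.2.1 s
    · rw [hlabl k x hx]
      exact (h1 k).2.2.2.2.2.2.2.1 x hx s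
  have hcol : ∀ j k, j < k → ∀ x ∈ insert (B j).2 (B j).1, ∀ x' ∈ insert (B k).2 (B k).1,
      d x' x = dl d (Us (lab k x')) (Us (lab j x)) := fun j k hjk x hx x' hx' => by
    rw [hA k x' hx' x ((h2 j k hjk).1 x hx), hB j x hx]
  have hwn : ∀ k, ∃ x, x ∈ (B k).1 := fun k => by
    have h3 : 0 < (B k).1.card := by
      have := (h1 k).1
      omega
    exact Finset.card_pos.1 h3
  refine ⟨Bool, fun s t => dl d (Us s) (Us t), fun k => insert (B k).2 (B k).1, lab,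
    ⟨_, Finset.mem_insert_self _ _⟩, ?_, ?_, ?_, ?_, ?_⟩
  · intro j k hjk
    show (insert (B j).2 (B j).1).card < (insert (B k).2 (B k).1).card
    rw [Finset.card_insert_of_notMem (h1 j).2.1, Finset.card_insert_of_notMem (h1 k).2.1,
      (h1 j).1, (h1 k).1]
    have := (h2 j k hjk).2.2
    omega
  · intro j k hjk
    rcases lt_or_gt_of_ne hjk with h | h
    · exact hdis j k h
    · exact (hdis k j h).symm
  · intro j k hjk x hx x' hx'
    rcases lt_or_gt_of_ne hjk with h | h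
    · exact (hX.iff hd (hUs _) (hUs _) x' x).1 (hcol j k h x hx x' hx')
    · exact hcol k j h x' hx' x hx
  · intro j k x hx
    rcases Finset.mem_insert.1 hx with rfl | hx
    · exact ⟨(B k).2, Finset.mem_insert_self _ _, by rw [hlabc, hlabc]⟩
    · obtain ⟨x', hx'⟩ := hwn k
      exact ⟨x', Finset.mem_insert_of_mem hx', by rw [hlabl k x' hx', hlabl j x hx]⟩
  · intro k G hG hGn hGne
    have hlink : ∀ x ∈ (B k).1, d x (B k).2 ≠ dl d (Us (lab k x)) (Us (lab k (B k).2)) := by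
      intro x hx
      rw [hlabc, hlabl k x hx]
      exact (h1 k).2.2.2.2.2.2.2.2 x hx
    by_cases hc : (B k).2 ∈ G
    · have h3 : ∃ x ∈ (B k).1, x ∉ G := by
        by_contra hcon
        push Not at hcon
        refine hGne (Finset.Subset.antisymm hG ?_)
        intro x hx
        rcases Finset.mem_insert.1 hx with rfl | hx
        · exact hc
        · exact hcon x hx
      obtain ⟨x, hx, hxG⟩ := h3
      refine ⟨(B k).2, hc, x, Finset.mem_insert_of_mem hx, hxG, fun h => hlink x hx ?_⟩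
      exact (hX.iff hd (hUs _) (hUs _) _ _).1 h
    · obtain ⟨x, hx⟩ := hGn
      have hx' : x ∈ (B k).1 := by
        rcases Finset.mem_insert.1 (hG hx) with rfl | h
        · exact absurd hx hc
        · exact h
      exact ⟨x, hx, (B k).2, Finset.mem_insert_self _ _, hc, hlink x hx'⟩

end Run7.h46.V
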